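import Pool.Agent.Helper91.SY.Goals

/-!
# Project SY, packet PS (the wave map)
-/

set_option autoImplicit false

open Set Filter Topology
open scoped ContDiff

namespace Pool.Agent.Helper62.SY

open Pool.Agent.Helper91.SY

theorem iter_smooth {E : Type} [NormedAddCommGroup E] [NormedSpace ℝ E] {g : E → E}
    (hg : ContDiff ℝ ∞ g) (N : ℕ) : ContDiff ℝ ∞ (g^[N]) := by
  induction N with
  | zero =>
    rw [Function.iterate_zero]
    exact contDiff_id
  | succ N ih =>
    rw [Function.iterate_succ]
    exact ih.comp hg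

theorem iter_pull {E : Type} [NormedAddCommGroup E] [NormedSpace ℝ E] {g : E → E}
    {B : E → E →L[ℝ] E →L[ℝ] ℝ} (hg : ContDiff ℝ ∞ g) (hp : Pull g B B) (N : ℕ) :
    Pull (g^[N]) B B := by
  induction N with
  | zero =>
    intro x u v
    rw [Function.iterate_zero, fderiv_id]
    rfl
  | succ N ih =>
    intro x u v
    have h1 : fderiv ℝ (g^[N + 1]) x = (fderiv ℝ (g^[N]) (g x)).comp (fderiv ℝ g x) := by
      rw [Function.iterate_succ]
      exact fderiv_comp x ((iter_smooth hg N).differentiable (by simp) (g x))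
        (hg.differentiable (by simp) x)
    rw [h1, ContinuousLinearMap.comp_apply, ContinuousLinearMap.comp_apply,
      Function.iterate_succ_apply, ih (g x), hp x]

/-- Packet `PS`. -/
theorem ps_ : Pool.Agent.Helper91.SY.StmtPS := by
  intro E _ _ _ B B0 R e τ g hR hB hFar hτe hg hpull hTr
  set m : ℝ := ‖τ‖ * R with hm
  have hbig : ∀ w, τ w < -m → R ≤ ‖w‖ := by
    intro w hw
    by_contra h
    push Not at h
    have h1 : |τ w| ≤ ‖τ‖ * ‖w‖ := τ.le_opNorm w
    have h2 : ‖τ‖ * ‖w‖ ≤ ‖τ‖ * R := mul_le_mul_of_nonneg_left h.le (norm_nonneg _)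
    have h3 := neg_abs_le (τ w)
    linarith
  set G : ℕ → E → E := fun N z => (fun x => g x)^[N] (z - (N : ℝ) • e) with hG
  have hstep : ∀ (N : ℕ) z, τ z - N < -m → G (N + 1) z = G N z := by
    intro N z hz
    have h1 : τ (z - ((N + 1 : ℕ) : ℝ) • e) < -m := by
      rw [map_sub, map_smul, hτe]
      push_cast
      simp only [smul_eq_mul, mul_one]
      linarith
    have h2 := hTr _ (hbig _ h1)
    simp only [hG]
    rw [Function.iterate_succ_apply, h2]
    congr 1
    push_cast
    rw [add_smul, one_smul]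
    abel
  have hmono : ∀ (N k : ℕ) z, τ z - N < -m → G (N + k) z = G N z := by
    intro N k z hz
    induction k with
    | zero => rfl
    | succ k ih =>
      rw [← ih, ← add_assoc]
      apply hstep
      push_cast
      have : (0 : ℝ) ≤ k := Nat.cast_nonneg k
      linarith
  have huniq : ∀ (N M : ℕ) z, τ z - N < -m → τ z - M < -m → G N z = G M z := by
    intro N M z hN hM
    rcases le_total N M with h | h
    · obtain ⟨k, rfl⟩ := Nat.exists_eq_add_of_le h
      exact (hmono N k z hN).symm
    · obtain ⟨k, rfl⟩ := Nat.exists_eq_add_of_le h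
      exact hmono M k z hM
  set nn : E → ℕ := fun z => ⌈τ z + m⌉₊ + 1 with hnn
  have hnn1 : ∀ z, τ z - nn z < -m := by
    intro z
    simp only [hnn]
    have := Nat.le_ceil (τ z + m)
    push_cast
    linarith
  set ψ : E → E := fun z => G (nn z) z with hψ
  have hloc : ∀ z0, ψ =ᶠ[𝓝 z0] G (nn z0) := by
    intro z0
    have h1 : IsOpen {z : E | τ z - nn z0 < -m} :=
      isOpen_lt (τ.continuous.sub continuous_const) continuous_const
    filter_upwards [h1.mem_nhds (hnn1 z0)] with z hz
    exact huniq _ _ z (hnn1 z) hz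
  have hGs : ∀ N, ContDiff ℝ ∞ (G N) := fun N =>
    (iter_smooth hg.1 N).comp (contDiff_id.sub contDiff_const)
  have hD : ∀ z u, fderiv ℝ ψ z u =
      fderiv ℝ ((fun x => g x)^[nn z]) (z - (nn z : ℝ) • e) u := by
    intro z u
    rw [(hloc z).fderiv_eq]
    have h1 : fderiv ℝ (G (nn z)) z =
        fderiv ℝ ((fun x => g x)^[nn z]) (z - (nn z : ℝ) • e) := by
      simp only [hG]
      exact fderiv_comp_sub _
    rw [h1]
  have hP : Pull ψ (fun _ => B0) B := by
    intro z u v
    rw [hD, hD]
    have h1 := iter_pull hg.1 hpull (nn z) (z - (nn z : ℝ) • e) u v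
    have h2 : B (z - (nn z : ℝ) • e) = B0 := by
      apply hFar
      apply hbig
      rw [map_sub, map_smul, hτe]
      simpa using hnn1 z
    rw [h2] at h1
    exact h1
  have he : e ≠ 0 := by
    rintro rfl
    rw [map_zero] at hτe
    exact zero_ne_one hτe
  refine ⟨ψ, ?_, ?_, hP, ?_⟩
  · rw [contDiff_iff_contDiffAt]
    intro z
    exact (hGs (nn z)).contDiffAt.congr_of_eventuallyEq (hloc z)
  · intro z
    rw [injective_iff_map_eq_zero]
    intro u hu
    have h1 : ∀ v, B0 u v = 0 := by
      intro v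
      have h2 := hP z u v
      rw [hu, map_zero] at h2
      simpa using h2.symm
    have h3 : R ≤ ‖(R / ‖e‖) • e‖ := by
      rw [norm_smul, Real.norm_of_nonneg (div_nonneg hR (norm_nonneg e)),
        div_mul_cancel₀ _ (norm_ne_zero_iff.2 he)]
    have h4 := hFar _ h3
    exact hB.nondeg _ u (by rw [h4]; exact h1)
  · intro z N hz
    exact huniq _ _ z (hnn1 z) hz

end Pool.Agent.Helper62.SY
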